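import Pool.Agent.Work.MP_40b2ba_co.Defs

/-!
Transitive subtournaments whose upper part lies in `X` and whose lower part lies in `Y`.
-/

set_option autoImplicit false

namespace Pool.Agent.Work.MP_40b2ba_co.QR

open Classical

variable {V : Type*} {R : V → V → Prop}

/-- Number of arcs from `X` to `Y`. -/
noncomputable def arcs (R : V → V → Prop) (X Y : Finset V) : ℕ :=
  ((X ×ˢ Y).filter fun q => R q.1 q.2).card

/-- Density of the arcs from `X` to `Y`. -/
noncomputable def dens (R : V → V → Prop) (X Y : Finset V) : ℝ :=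
  (arcs R X Y : ℝ) / (X.card * Y.card)

/-- There is a transitive subtournament with `k` vertices, an upper part in `X` and the rest in
`Y`. -/
def Ch (R : V → V → Prop) (X Y : Finset V) (k : ℕ) : Prop :=
  ∃ a b : List V, (a ++ b).Pairwise R ∧ (∀ v ∈ a, v ∈ X) ∧ (∀ v ∈ b, v ∈ Y) ∧
    a.length + b.length = k

theorem Ch.hasTT {X Y : Finset V} {k : ℕ} (h : Ch R X Y k) : HasTT R k := by
  obtain ⟨a, b, h, -, -, hk⟩ := h
  have hl : (a ++ b).length = k := by rw [List.length_append, hk]
  subst hl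
  exact ⟨fun i => (a ++ b).get i, fun i j hij => (List.pairwise_iff_get.1 h) i j hij⟩

theorem HasTT.mono {k l : ℕ} (h : HasTT R k) (hl : l ≤ k) : HasTT R l := by
  obtain ⟨v, hv⟩ := h
  exact ⟨fun i => v (Fin.castLE hl i), fun i j hij => hv _ _ (by simpa using hij)⟩

/-- Out-neighbours in `S`. -/
noncomputable def outN (R : V → V → Prop) (v : V) (S : Finset V) : Finset V :=
  S.filter fun w => R v w

/-- In-neighbours in `S`. -/
noncomputable def inN (R : V → V → Prop) (v : V) (S : Finset V) : Finset V :=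
  S.filter fun w => R w v

theorem mem_outN {v w : V} {S : Finset V} : w ∈ outN R v S ↔ w ∈ S ∧ R v w := by simp [outN]

theorem mem_inN {v w : V} {S : Finset V} : w ∈ inN R v S ↔ w ∈ S ∧ R w v := by simp [inN]

theorem disj (hR : IsTour R) (v : V) (S : Finset V) : Disjoint (outN R v S) (inN R v S) := by
  rw [Finset.disjoint_left]
  intro w h1 h2
  rw [mem_outN] at h1
  rw [mem_inN] at h2
  have hne : v ≠ w := by rintro rfl; exact hR.1 _ h1.2
  rcases hR.2 v w hne with h | h
  · exact h.2 h2.2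
  · exact h.2 h1.2

theorem union_eq (hR : IsTour R) {v : V} {S : Finset V} :
    outN R v S ∪ inN R v S = S.erase v := by
  ext w
  rw [Finset.mem_union, mem_outN, mem_inN, Finset.mem_erase]
  constructor
  · rintro (h | h)
    · exact ⟨by rintro rfl; exact hR.1 _ h.2, h.1⟩
    · exact ⟨by rintro rfl; exact hR.1 _ h.2, h.1⟩
  · rintro ⟨h1, h2⟩
    rcases hR.2 v w (Ne.symm h1) with h | h
    · exact Or.inl ⟨h2, h.1⟩
    · exact Or.inr ⟨h2, h.1⟩

theorem card_out_in (hR : IsTour R) {v : V} {S : Finset V} (hv : v ∈ S) :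
    (outN R v S).card + (inN R v S).card = S.card - 1 := by
  rw [← Finset.card_union_of_disjoint (disj hR v S), union_eq hR, Finset.card_erase_of_mem hv]

theorem tt_in (hR : IsTour R) : ∀ (k : ℕ) (Y : Finset V), 2 ^ k ≤ Y.card →
    ∃ b : List V, b.Pairwise R ∧ (∀ v ∈ b, v ∈ Y) ∧ b.length = k + 1 := by
  intro k
  induction k with
  | zero =>
    intro Y h
    have h1 : 0 < Y.card := by simpa using h
    obtain ⟨y, hy⟩ := Finset.card_pos.1 h1
    exact ⟨[y], List.pairwise_singleton _ _, by simpa using hy, rfl⟩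
  | succ k ih =>
    intro Y h
    rw [pow_succ] at h
    have hp : 0 < 2 ^ k := by positivity
    obtain ⟨y, hy⟩ := Finset.card_pos.1 (by omega : 0 < Y.card)
    have h1 := card_out_in hR hy
    by_cases h2 : 2 ^ k ≤ (outN R y Y).card
    · obtain ⟨b, hb1, hb2, hb3⟩ := ih _ h2
      refine ⟨y :: b, List.pairwise_cons.2 ⟨fun w hw => (mem_outN.1 (hb2 w hw)).2, hb1⟩, ?_, ?_⟩
      · intro v hv
        rcases List.mem_cons.1 hv with rfl | hv
        · exact hy
        · exact (mem_outN.1 (hb2 v hv)).1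
      · rw [List.length_cons, hb3]
    · have h3 : 2 ^ k ≤ (inN R y Y).card := by omega
      obtain ⟨b, hb1, hb2, hb3⟩ := ih _ h3
      refine ⟨b ++ [y], ?_, ?_, ?_⟩
      · rw [List.pairwise_append]
        refine ⟨hb1, List.pairwise_singleton _ _, fun u hu w hw => ?_⟩
        rw [List.mem_singleton] at hw
        rw [hw]
        exact (mem_inN.1 (hb2 u hu)).2
      · intro v hv
        rcases List.mem_append.1 hv with hv | hv
        · exact (mem_inN.1 (hb2 v hv)).1
        · rw [List.mem_singleton.1 hv]; exact hy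
      · rw [List.length_append, hb3]; rfl

theorem ch_base (hR : IsTour R) (X : Finset V) {Y : Finset V} (hY : Y.Nonempty) :
    ∃ k : ℕ, Ch R X Y k ∧ Real.logb 2 Y.card ≤ k := by
  have hpos : 0 < Y.card := Finset.card_pos.2 hY
  obtain ⟨b, hb1, hb2, hb3⟩ := tt_in hR (Nat.log 2 Y.card) Y (Nat.pow_log_le_self 2 hpos.ne')
  refine ⟨b.length, ⟨[], b, by simpa using hb1, by simp, hb2, by simp⟩, ?_⟩
  rw [hb3]
  have h1 : Y.card < 2 ^ (Nat.log 2 Y.card + 1) := Nat.lt_pow_succ_log_self (by norm_num) _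
  rw [Real.logb_le_iff_le_rpow (by norm_num) (by exact_mod_cast hpos), Real.rpow_natCast]
  exact_mod_cast h1.le

theorem ch_out {X Y : Finset V} {v : V} (hv : v ∈ X) {k : ℕ}
    (h : Ch R (outN R v X) (outN R v Y) k) : Ch R X Y (k + 1) := by
  obtain ⟨a, b, h1, h2, h3, h4⟩ := h
  refine ⟨v :: a, b, ?_, ?_, ?_, ?_⟩
  · rw [List.cons_append, List.pairwise_cons]
    refine ⟨fun w hw => ?_, h1⟩
    rcases List.mem_append.1 hw with hw | hw
    · exact (mem_outN.1 (h2 w hw)).2
    · exact (mem_outN.1 (h3 w hw)).2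
  · intro w hw
    rcases List.mem_cons.1 hw with rfl | hw
    · exact hv
    · exact (mem_outN.1 (h2 w hw)).1
  · intro w hw; exact (mem_outN.1 (h3 w hw)).1
  · rw [List.length_cons]; omega

theorem ch_in {X Y : Finset V} {v : V} (hv : v ∈ X) {k : ℕ}
    (h : Ch R (inN R v X) (outN R v Y) k) : Ch R X Y (k + 1) := by
  obtain ⟨a, b, h1, h2, h3, h4⟩ := h
  rw [List.pairwise_append] at h1
  obtain ⟨ha, hb, hab⟩ := h1
  refine ⟨a ++ [v], b, ?_, ?_, ?_, ?_⟩
  · rw [List.append_assoc, List.pairwise_append]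
    refine ⟨ha, ?_, ?_⟩
    · rw [List.singleton_append, List.pairwise_cons]
      exact ⟨fun w hw => (mem_outN.1 (h3 w hw)).2, hb⟩
    · intro u hu w hw
      rw [List.singleton_append, List.mem_cons] at hw
      rcases hw with rfl | hw
      · exact (mem_inN.1 (h2 u hu)).2
      · exact hab u hu w hw
  · intro w hw
    rcases List.mem_append.1 hw with hw | hw
    · exact (mem_inN.1 (h2 w hw)).1
    · rw [List.mem_singleton.1 hw]; exact hv
  · intro w hw; exact (mem_outN.1 (h3 w hw)).1
  · rw [List.length_append, List.length_singleton]; omega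

/-! ### Counting -/

theorem arcs_eq_out (X Y : Finset V) : arcs R X Y = ∑ v ∈ X, (outN R v Y).card := by
  unfold arcs outN
  rw [Finset.card_filter, Finset.sum_product]
  refine Finset.sum_congr rfl fun v _ => ?_
  rw [Finset.card_filter]

theorem arcs_eq_in (X Y : Finset V) : arcs R X Y = ∑ y ∈ Y, (inN R y X).card := by
  unfold arcs inN
  rw [Finset.card_filter, Finset.sum_product_right]
  refine Finset.sum_congr rfl fun v _ => ?_
  rw [Finset.card_filter]

theorem arcs_le (X Y : Finset V) : arcs R X Y ≤ X.card * Y.card := by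
  unfold arcs
  exact (Finset.card_filter_le _ _).trans (by rw [Finset.card_product])

theorem arcs_split (hR : IsTour R) (v : V) (X Y : Finset V) :
    arcs R (X.erase v) Y = arcs R (outN R v X) Y + arcs R (inN R v X) Y := by
  rw [arcs_eq_out, arcs_eq_out, arcs_eq_out, ← union_eq hR,
    Finset.sum_union (disj hR v X)]

theorem inN_erase {v y : V} {X : Finset V} (hv : v ∈ X) (h : R v y) :
    (inN R y (X.erase v)).card + 1 = (inN R y X).card := by
  have h1 : inN R y (X.erase v) = (inN R y X).erase v := by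
    ext w
    simp only [inN, Finset.mem_filter, Finset.mem_erase]
    tauto
  have h2 : v ∈ inN R y X := mem_inN.2 ⟨hv, h⟩
  rw [h1, Finset.card_erase_of_mem h2]
  have := Finset.card_pos.2 ⟨v, h2⟩
  omega

theorem sum_second (X Y : Finset V) :
    (∑ v ∈ X, arcs R (X.erase v) (outN R v Y)) + arcs R X Y = ∑ y ∈ Y, (inN R y X).card ^ 2 := by
  have h1 : ∀ v ∈ X, arcs R (X.erase v) (outN R v Y) + (outN R v Y).card =
      ∑ y ∈ outN R v Y, (inN R y X).card := by
    intro v hv
    rw [arcs_eq_in, Finset.card_eq_sum_ones, ← Finset.sum_add_distrib]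
    refine Finset.sum_congr rfl fun y hy => inN_erase hv (mem_outN.1 hy).2
  rw [arcs_eq_out (R := R) X Y, ← Finset.sum_add_distrib, Finset.sum_congr rfl h1]
  have h2 : ∀ v ∈ X, ∑ y ∈ outN R v Y, (inN R y X).card =
      ∑ y ∈ Y, if R v y then (inN R y X).card else 0 := by
    intro v _
    rw [outN, Finset.sum_filter]
  rw [Finset.sum_congr rfl h2, Finset.sum_comm]
  refine Finset.sum_congr rfl fun y _ => ?_
  rw [← Finset.sum_filter, Finset.sum_const, smul_eq_mul, sq]
  rfl

theorem sum_second_ge (X Y : Finset V) :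
    (arcs R X Y : ℝ) ^ 2 ≤ Y.card *
      ((∑ v ∈ X, (arcs R (X.erase v) (outN R v Y) : ℝ)) + arcs R X Y) := by
  have h1 := sum_second (R := R) X Y
  have h2 : ((∑ v ∈ X, (arcs R (X.erase v) (outN R v Y) : ℝ)) + arcs R X Y) =
      ∑ y ∈ Y, ((inN R y X).card : ℝ) ^ 2 := by exact_mod_cast h1
  rw [h2, arcs_eq_in]
  push_cast
  exact sq_sum_le_card_mul_sum_sq

end Pool.Agent.Work.MP_40b2ba_co.QR
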