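import Pool.Agent.Work.MP_40b2ba_co.QR.Chain

/-!
A tournament in which large disjoint sets have density at least `1/4` in both directions contains
all small tournaments.
-/

set_option autoImplicit false

namespace Pool.Agent.Work.MP_40b2ba_co.QR

open Classical

variable {V : Type*} {R : V → V → Prop}

theorem arcs_quarter {X Y : Finset V} {s : ℕ}
    (hq : ∀ X Y : Finset V, Disjoint X Y → s ≤ X.card → s ≤ Y.card → 1 / 4 ≤ dens R X Y)
    (hd : Disjoint X Y) (hX : s ≤ X.card) (hY : s ≤ Y.card) :
    X.card * Y.card ≤ 4 * arcs R X Y := by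
  have h1 := hq X Y hd hX hY
  unfold dens at h1
  rcases Nat.eq_zero_or_pos (X.card * Y.card) with h0 | h0
  · omega
  · have h2 : (0 : ℝ) < X.card * Y.card := by exact_mod_cast h0
    rw [le_div_iff₀ h2] at h1
    have h3 : ((X.card * Y.card : ℕ) : ℝ) ≤ ((4 * arcs R X Y : ℕ) : ℝ) := by
      push_cast; linarith
    exact_mod_cast h3

/-- Vertices with few neighbours of the prescribed kind. -/
noncomputable def bad (R : V → V → Prop) (b : Prop) (X Y : Finset V) : Finset V :=
  X.filter fun v => 4 * (if b then outN R v Y else inN R v Y).card < Y.card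

theorem bad_card {s : ℕ} (hs : 1 ≤ s)
    (hq : ∀ X Y : Finset V, Disjoint X Y → s ≤ X.card → s ≤ Y.card → 1 / 4 ≤ dens R X Y)
    (b : Prop) {X Y : Finset V} (hd : Disjoint X Y) (hY : s ≤ Y.card) :
    (bad R b X Y).card < s := by
  by_contra hcon
  push Not at hcon
  have hd' : Disjoint (bad R b X Y) Y := Finset.disjoint_of_subset_left (Finset.filter_subset _ _) hd
  have hpos : 0 < (bad R b X Y).card := by omega
  obtain ⟨v0, hv0⟩ := Finset.card_pos.1 hpos
  have hlt : ∑ v ∈ bad R b X Y, 4 * (if b then outN R v Y else inN R v Y).card <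
      ∑ _v ∈ bad R b X Y, Y.card :=
    Finset.sum_lt_sum (fun v hv => (Finset.mem_filter.1 hv).2.le)
      ⟨v0, hv0, (Finset.mem_filter.1 hv0).2⟩
  rw [Finset.sum_const, smul_eq_mul, ← Finset.mul_sum] at hlt
  by_cases hb : b
  · simp only [hb, if_true] at hlt
    rw [← arcs_eq_out] at hlt
    have := arcs_quarter hq hd' hcon hY
    simp only [hb] at this hlt
    omega
  · simp only [hb, if_false] at hlt
    rw [← arcs_eq_in] at hlt
    have := arcs_quarter hq hd'.symm hY hcon
    simp only [hb] at this hlt
    rw [mul_comm] at this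
    omega

theorem embed {s : ℕ} (hs : 1 ≤ s)
    (hq : ∀ X Y : Finset V, Disjoint X Y → s ≤ X.card → s ≤ Y.card → 1 / 4 ≤ dens R X Y) :
    ∀ (h : ℕ) (H : Fin h → Fin h → Prop), IsTour H → ∀ W : Fin h → Finset V,
      (∀ i j, i ≠ j → Disjoint (W i) (W j)) → (∀ i, 4 ^ h * (h * s) ≤ (W i).card) →
      ∃ g : Fin h → V, (∀ i, g i ∈ W i) ∧ ∀ i j, H i j → R (g i) (g j) := by
  intro h
  induction h with
  | zero =>
    intro H _ W _ _
    exact ⟨fun i => i.elim0, fun i => i.elim0, fun i => i.elim0⟩
  | succ h ih =>
    intro H hH W hd hc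
    have hbig : ∀ i, (h + 1) * s ≤ (W i).card := fun i => by
      refine le_trans ?_ (hc i)
      exact Nat.le_mul_of_pos_left _ (by positivity)
    have hsle : ∀ i, s ≤ (W i).card := fun i => (Nat.le_mul_of_pos_left s (by omega)).trans (hbig i)
    -- a good vertex
    have hgood : ∃ v ∈ W 0, ∀ j : Fin h, (W j.succ).card ≤
        4 * (if H 0 j.succ then outN R v (W j.succ) else inN R v (W j.succ)).card := by
      by_contra hcon
      push Not at hcon
      have hsub : W 0 ⊆ Finset.univ.biUnion fun j : Fin h => bad R (H 0 j.succ) (W 0) (W j.succ) := by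
        intro v hv
        obtain ⟨j, hj⟩ := hcon v hv
        rw [Finset.mem_biUnion]
        exact ⟨j, Finset.mem_univ _, Finset.mem_filter.2 ⟨hv, hj⟩⟩
      have h1 := Finset.card_le_card hsub
      have h2 : (Finset.univ.biUnion fun j : Fin h =>
          bad R (H 0 j.succ) (W 0) (W j.succ)).card ≤ ∑ _j : Fin h, s := by
        refine Finset.card_biUnion_le.trans (Finset.sum_le_sum fun j _ => ?_)
        exact (bad_card hs hq _ (hd 0 j.succ (Fin.succ_ne_zero j).symm) (hsle _)).le
      rw [Finset.sum_const, Finset.card_univ, Fintype.card_fin, smul_eq_mul] at h2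
      have h3 := hbig 0
      have h4 : (h + 1) * s = h * s + s := by ring
      omega
    obtain ⟨v, hv, hgv⟩ := hgood
    obtain ⟨g, hg1, hg2⟩ := ih (fun i j => H i.succ j.succ)
      ⟨fun a => hH.1 _, fun a b hab => hH.2 _ _ (fun h => hab (Fin.succ_injective _ h))⟩
      (fun j => if H 0 j.succ then outN R v (W j.succ) else inN R v (W j.succ))
      (fun i j hij => by
        have h1 := hd i.succ j.succ (fun h => hij (Fin.succ_injective _ h))
        have hsub : ∀ k : Fin h, (if H 0 k.succ then outN R v (W k.succ) else
            inN R v (W k.succ)) ⊆ W k.succ := by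
          intro k
          split_ifs
          · exact Finset.filter_subset _ _
          · exact Finset.filter_subset _ _
        exact Finset.disjoint_of_subset_left (hsub i) (Finset.disjoint_of_subset_right (hsub j) h1))
      (fun j => by
        have h1 := hgv j
        have h2 := hc j.succ
        have h3 : 4 ^ (h + 1) * ((h + 1) * s) = 4 * (4 ^ h * (h * s) + 4 ^ h * s) := by ring
        have h4 : 0 ≤ 4 ^ h * s := Nat.zero_le _
        omega)
    refine ⟨Fin.cons v g, fun i => ?_, fun i j hij => ?_⟩
    · refine Fin.cases ?_ (fun k => ?_) i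
      · exact hv
      · have := hg1 k
        simp only [Fin.cons_succ]
        split_ifs at this with hk
        · exact (mem_outN.1 this).1
        · exact (mem_inN.1 this).1
    · revert hij
      refine Fin.cases ?_ (fun k => ?_) i
      · refine Fin.cases ?_ (fun l => ?_) j
        · intro hij; exact absurd hij (hH.1 0)
        · intro hij
          have := hg1 l
          simp only [hij, if_true] at this
          simpa using (mem_outN.1 this).2
      · refine Fin.cases ?_ (fun l => ?_) j
        · intro hij
          have h0 : ¬ H 0 k.succ := by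
            rcases hH.2 0 k.succ (Fin.succ_ne_zero k).symm with h | h
            · exact fun _ => h.2 hij
            · exact h.2
          have := hg1 k
          simp only [h0, if_false] at this
          simpa using (mem_inN.1 this).2
        · intro hij
          simpa using hg2 k l hij

theorem embed_all [Fintype V] {s : ℕ} (hs : 1 ≤ s)
    (hq : ∀ X Y : Finset V, Disjoint X Y → s ≤ X.card → s ≤ Y.card → 1 / 4 ≤ dens R X Y)
    (h : ℕ) (H : Fin h → Fin h → Prop) (hH : IsTour H)
    (hbig : h * (4 ^ h * (h * s)) ≤ Fintype.card V) :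
    ∃ g : Fin h → V, ∀ i j, H i j → R (g i) (g j) := by
  set B := 4 ^ h * (h * s) with hB
  obtain ⟨e⟩ : Nonempty (Fin h × Fin B ↪ V) :=
    Function.Embedding.nonempty_of_card_le (by simpa using hbig)
  obtain ⟨g, -, hg⟩ := embed hs hq h H hH
    (fun i => Finset.univ.map ⟨fun b : Fin B => e (i, b), fun a b hab => by
      have := e.injective hab
      exact (Prod.mk.inj this).2⟩)
    (fun i j hij => by
      rw [Finset.disjoint_left]
      intro x hx hy
      rw [Finset.mem_map] at hx hy
      obtain ⟨a, -, ha⟩ := hx
      obtain ⟨b, -, hb⟩ := hy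
      change e (i, a) = x at ha
      change e (j, b) = x at hb
      rw [← hb] at ha
      exact hij (Prod.mk.inj (e.injective ha)).1)
    (fun i => by simp [hB])
  exact ⟨g, hg⟩

end Pool.Agent.Work.MP_40b2ba_co.QR
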