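import Pool.Agent.Work.MP_40b2ba_co.QR.TwoSet
import Pool.Agent.Work.MP_40b2ba_co.QR.Univ

/-!
Tournaments near the doubling bound are quasirandom.
-/

set_option autoImplicit false

namespace Pool.Agent.Work.MP_40b2ba_co.QR

open Real

variable {V : Type*} {R : V → V → Prop}

/-- The reversed tournament. -/
def rev (R : V → V → Prop) : V → V → Prop := fun a b => R b a

theorem isTour_rev (hR : IsTour R) : IsTour (rev R) :=
  ⟨hR.1, fun a b hab => by
    rcases hR.2 a b hab with h | h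
    · exact Or.inr h
    · exact Or.inl h⟩

theorem hasTT_rev {n : ℕ} (h : HasTT (rev R) n) : HasTT R n := by
  obtain ⟨v, hv⟩ := h
  exact ⟨fun i => v i.rev, fun i j hij => hv j.rev i.rev (Fin.rev_lt_rev.2 hij)⟩

theorem two_set_main (hR : IsTour R) {X Y : Finset V} (hX : X.Nonempty) (hY : Y.Nonempty) :
    ∃ k : ℕ, HasTT R k ∧ logb 2 Y.card + (dens R X Y - 1 / 2) * logb 2 X.card - 30 ≤ k := by
  obtain ⟨k, hk, h⟩ := two_set hR X.card X Y rfl hX hY
  exact ⟨k, hk.hasTT, by linarith⟩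

theorem bias_lt (hR : IsTour R) {n : ℕ} (hn : ¬ HasTT R n) {X Y : Finset V} (hX : X.Nonempty)
    (hY : Y.Nonempty) : (dens R X Y - 1 / 2) * logb 2 X.card < n - logb 2 Y.card + 30 := by
  obtain ⟨k, hk, h⟩ := two_set_main hR hX hY
  have hkn : k < n := by
    by_contra hc
    exact hn (HasTT.mono hk (not_lt.1 hc))
  have : (k : ℝ) < n := by exact_mod_cast hkn
  linarith

/-- Few vertices have many out-neighbours in `Y`. -/
theorem exc_out (hR : IsTour R) {n : ℕ} (hn : ¬ HasTT R n) {X Y : Finset V} (hY : Y.Nonempty)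
    {δ : ℝ} (hδ : 0 < δ) (h : ∀ v ∈ X, (1 / 2 + δ) * Y.card ≤ (outN R v Y).card) :
    (X.card : ℝ) ≤ (2 ^ ((n : ℝ) + 30) / Y.card) ^ (1 / δ) := by
  have hYR : (0 : ℝ) < Y.card := by exact_mod_cast Finset.card_pos.2 hY
  rcases X.eq_empty_or_nonempty with rfl | hX
  · simp; positivity
  have hXR : (0 : ℝ) < X.card := by exact_mod_cast Finset.card_pos.2 hX
  have hX1 : (1 : ℝ) ≤ X.card := by exact_mod_cast Finset.card_pos.2 hX
  have hdens : 1 / 2 + δ ≤ dens R X Y := by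
    unfold dens
    rw [le_div_iff₀ (by positivity), arcs_eq_out]
    have h1 : ∑ v ∈ X, (1 / 2 + δ) * (Y.card : ℝ) ≤ ∑ v ∈ X, ((outN R v Y).card : ℝ) :=
      Finset.sum_le_sum h
    rw [Finset.sum_const, nsmul_eq_mul] at h1
    push_cast
    linarith
  have hlog0 : 0 ≤ logb 2 (X.card : ℝ) := Real.logb_nonneg (by norm_num) hX1
  have hb := bias_lt hR hn hX hY
  have h2 : δ * logb 2 X.card ≤ (dens R X Y - 1 / 2) * logb 2 X.card :=
    mul_le_mul_of_nonneg_right (by linarith) hlog0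
  have h3 : logb 2 (X.card : ℝ) ≤ (1 / δ) * ((n : ℝ) + 30 - logb 2 Y.card) := by
    rw [one_div, ← div_eq_inv_mul, le_div_iff₀ hδ]
    linarith
  have h4 : (2 ^ ((n : ℝ) + 30) / (Y.card : ℝ)) = 2 ^ ((n : ℝ) + 30 - logb 2 Y.card) := by
    rw [Real.rpow_sub (by norm_num) ((n : ℝ) + 30), Real.rpow_logb (by norm_num) (by norm_num) hYR]
  rw [h4, ← Real.rpow_mul (by norm_num), ← Real.logb_le_iff_le_rpow (by norm_num) hXR]
  linarith

theorem exc_both (hR : IsTour R) {n : ℕ} (hn : ¬ HasTT R n) {X Y : Finset V} (hY : Y.Nonempty)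
    {δ : ℝ} (hδ : 0 < δ) (h : ∀ v ∈ X, (1 / 2 + δ) * Y.card ≤ (outN R v Y).card ∨
      (1 / 2 + δ) * Y.card ≤ (inN R v Y).card) :
    (X.card : ℝ) ≤ 2 * (2 ^ ((n : ℝ) + 30) / Y.card) ^ (1 / δ) := by
  classical
  set X1 := X.filter fun v => (1 / 2 + δ) * Y.card ≤ ((outN R v Y).card : ℝ) with hX1
  set X2 := X.filter fun v => (1 / 2 + δ) * Y.card ≤ ((inN R v Y).card : ℝ) with hX2
  have h1 : (X1.card : ℝ) ≤ (2 ^ ((n : ℝ) + 30) / Y.card) ^ (1 / δ) :=
    exc_out hR hn hY hδ (fun v hv => (Finset.mem_filter.1 hv).2)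
  have h2 : (X2.card : ℝ) ≤ (2 ^ ((n : ℝ) + 30) / Y.card) ^ (1 / δ) :=
    exc_out (isTour_rev hR) (fun h => hn (hasTT_rev h)) hY hδ
      (fun v hv => (Finset.mem_filter.1 hv).2)
  have h3 : X ⊆ X1 ∪ X2 := by
    intro v hv
    rcases h v hv with h | h
    · exact Finset.mem_union_left _ (Finset.mem_filter.2 ⟨hv, h⟩)
    · exact Finset.mem_union_right _ (Finset.mem_filter.2 ⟨hv, h⟩)
  have h4 : X.card ≤ X1.card + X2.card := (Finset.card_le_card h3).trans (Finset.card_union_le _ _)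
  have h5 : (X.card : ℝ) ≤ X1.card + X2.card := by exact_mod_cast h4
  linarith

theorem arcs_comm (hR : IsTour R) {X Y : Finset V} (hd : Disjoint X Y) :
    arcs R X Y + arcs R Y X = X.card * Y.card := by
  classical
  rw [arcs_eq_out (R := R) X Y, arcs_eq_in (R := R) Y X, ← Finset.sum_add_distrib]
  have h : ∀ v ∈ X, (outN R v Y).card + (inN R v Y).card = Y.card := by
    intro v hv
    have hvY : v ∉ Y := Finset.disjoint_left.1 hd hv
    rw [← Finset.card_union_of_disjoint (disj hR v Y), union_eq hR,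
      Finset.erase_eq_of_notMem hvY]
  rw [Finset.sum_congr rfl h, Finset.sum_const, smul_eq_mul]

theorem dens_comm (hR : IsTour R) {X Y : Finset V} (hd : Disjoint X Y) (hX : X.Nonempty)
    (hY : Y.Nonempty) : dens R X Y + dens R Y X = 1 := by
  have hXR : (0 : ℝ) < X.card := by exact_mod_cast Finset.card_pos.2 hX
  have hYR : (0 : ℝ) < Y.card := by exact_mod_cast Finset.card_pos.2 hY
  have h := arcs_comm hR hd
  have h1 : (arcs R X Y : ℝ) + arcs R Y X = X.card * Y.card := by exact_mod_cast h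
  unfold dens
  rw [mul_comm (Y.card : ℝ) (X.card : ℝ), ← add_div, h1, div_self (by positivity)]

/-- One direction of the quasirandomness. -/
theorem upper [Fintype V] (hR : IsTour R) {n : ℕ} (hn : ¬ HasTT R n) {e : ℝ} (he0 : 0 < e)
    (he : e ≤ 1 / 10) (hn0 : 1 ≤ n)
    (hV : (2 : ℝ) ^ ((1 - e) * n) ≤ Fintype.card V) {X Y : Finset V}
    (hX : (2 : ℝ) ^ (-(e * n)) * Fintype.card V ≤ X.card)
    (hY : (2 : ℝ) ^ (-(e * n)) * Fintype.card V ≤ Y.card) :
    dens R X Y - 1 / 2 < 3 * e + 38 / n := by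
  have hnR : (1 : ℝ) ≤ n := by exact_mod_cast hn0
  have hVpos : (0 : ℝ) < Fintype.card V := lt_of_lt_of_le (by positivity) hV
  have hlow : ∀ Z : Finset V, (2 : ℝ) ^ (-(e * n)) * Fintype.card V ≤ Z.card →
      Z.Nonempty ∧ (1 - 2 * e) * n ≤ logb 2 Z.card := by
    intro Z hZ
    have hpos : (0 : ℝ) < Z.card := lt_of_lt_of_le (by positivity) hZ
    refine ⟨Finset.card_pos.1 (by exact_mod_cast hpos), ?_⟩
    rw [Real.le_logb_iff_rpow_le (by norm_num) hpos]
    calc (2 : ℝ) ^ ((1 - 2 * e) * n) = 2 ^ (-(e * n)) * 2 ^ ((1 - e) * n) := by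
          rw [← Real.rpow_add (by norm_num)]; ring_nf
      _ ≤ 2 ^ (-(e * n)) * Fintype.card V := mul_le_mul_of_nonneg_left hV (by positivity)
      _ ≤ Z.card := hZ
  obtain ⟨hXn, hXl⟩ := hlow X hX
  obtain ⟨hYn, hYl⟩ := hlow Y hY
  have hb := bias_lt hR hn hXn hYn
  by_contra hcon
  push Not at hcon
  have h0 : 0 ≤ dens R X Y - 1 / 2 := le_trans (by positivity) hcon
  have h1 : (dens R X Y - 1 / 2) * ((1 - 2 * e) * n) ≤ (dens R X Y - 1 / 2) * logb 2 X.card :=
    mul_le_mul_of_nonneg_left hXl h0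
  have h2 : (3 * e + 38 / n) * ((1 - 2 * e) * n) ≤ (dens R X Y - 1 / 2) * ((1 - 2 * e) * n) :=
    mul_le_mul_of_nonneg_right hcon (mul_nonneg (by linarith) (by linarith))
  have h3 : (3 * e + 38 / n) * ((1 - 2 * e) * n) = 3 * e * (1 - 2 * e) * n + 38 * (1 - 2 * e) := by
    field_simp
  have h4 : 2 * e * n ≤ 3 * e * (1 - 2 * e) * n := by
    have : 2 * e ≤ 3 * e * (1 - 2 * e) := by nlinarith
    exact mul_le_mul_of_nonneg_right this (by linarith)
  have h5 : (n : ℝ) - logb 2 Y.card + 30 ≤ 2 * e * n + 30 := by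
    have : (1 - 2 * e) * (n : ℝ) = n - 2 * e * n := by ring
    linarith
  have h6 : 30 ≤ 38 * (1 - 2 * e) := by linarith
  linarith

theorem quasirandom [Fintype V] (hR : IsTour R) {n : ℕ} (hn : ¬ HasTT R n) {e : ℝ} (he0 : 0 < e)
    (he : e ≤ 1 / 10) (hn0 : 1 ≤ n)
    (hV : (2 : ℝ) ^ ((1 - e) * n) ≤ Fintype.card V) {X Y : Finset V} (hd : Disjoint X Y)
    (hX : (2 : ℝ) ^ (-(e * n)) * Fintype.card V ≤ X.card)
    (hY : (2 : ℝ) ^ (-(e * n)) * Fintype.card V ≤ Y.card) :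
    |dens R X Y - 1 / 2| < 3 * e + 38 / n := by
  have hVpos : (0 : ℝ) < Fintype.card V := lt_of_lt_of_le (by positivity) hV
  have hne : ∀ Z : Finset V, (2 : ℝ) ^ (-(e * n)) * Fintype.card V ≤ Z.card → Z.Nonempty := by
    intro Z hZ
    have hpos : (0 : ℝ) < Z.card := lt_of_lt_of_le (by positivity) hZ
    exact Finset.card_pos.1 (by exact_mod_cast hpos)
  have h1 := upper hR hn he0 he hn0 hV hX hY
  have h2 := upper hR hn he0 he hn0 hV hY hX
  have h3 := dens_comm hR hd (hne X hX) (hne Y hY)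
  rw [abs_lt]
  constructor <;> linarith

theorem universal [Fintype V] (hR : IsTour R) {n : ℕ} (hn : ¬ HasTT R n) (hn0 : 380 ≤ n)
    (hV : (2 : ℝ) ^ (19 / 20 * (n : ℝ)) ≤ Fintype.card V) (h : ℕ) (hh : 80 * h ≤ n)
    (H : Fin h → Fin h → Prop) (hH : IsTour H) :
    ∃ g : Fin h → V, ∀ i j, H i j → R (g i) (g j) := by
  have hnR : (380 : ℝ) ≤ n := by exact_mod_cast hn0
  set t : ℝ := (2 : ℝ) ^ (-(1 / 20 * (n : ℝ))) * Fintype.card V with ht
  have ht1 : 1 ≤ t := by
    calc (1 : ℝ) ≤ 2 ^ (9 / 10 * (n : ℝ)) := Real.one_le_rpow (by norm_num) (by positivity)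
      _ = 2 ^ (-(1 / 20 * (n : ℝ))) * 2 ^ (19 / 20 * (n : ℝ)) := by
          rw [← Real.rpow_add (by norm_num)]; ring_nf
      _ ≤ t := mul_le_mul_of_nonneg_left hV (by positivity)
  set s : ℕ := ⌈t⌉₊ with hs
  have hts : t ≤ s := Nat.le_ceil t
  have hs1 : 1 ≤ s := by
    have : (1 : ℝ) ≤ s := ht1.trans hts
    exact_mod_cast this
  have hs2 : (s : ℝ) ≤ 2 * t := by
    have := Nat.ceil_lt_add_one (by linarith : (0 : ℝ) ≤ t)
    linarith
  refine embed_all hs1 (fun X Y hd hX hY => ?_) h H hH ?_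
  · have hX' : t ≤ X.card := hts.trans (by exact_mod_cast hX)
    have hY' : t ≤ Y.card := hts.trans (by exact_mod_cast hY)
    have hq := quasirandom (e := 1 / 20) hR hn (by norm_num) (by norm_num) (by omega)
      (by
        have : (1 - 1 / 20 : ℝ) * n = 19 / 20 * n := by ring
        rw [this]; exact hV) hd hX' hY'
    rw [abs_lt] at hq
    have h1 : (38 : ℝ) / n ≤ 1 / 10 := by
      rw [div_le_iff₀ (by linarith)]
      linarith
    linarith [hq.1]
  · have h1 : 2 * h * h ≤ 4 ^ h := by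
      clear hh H hH
      induction h with
      | zero => simp
      | succ h ih =>
        rcases Nat.eq_zero_or_pos h with h0 | h0
        · subst h0; norm_num
        · rw [pow_succ]
          nlinarith
    have h2 : 4 ^ h * (2 * h * h) ≤ 2 ^ (4 * h) := by
      calc 4 ^ h * (2 * h * h) ≤ 4 ^ h * 4 ^ h := Nat.mul_le_mul_left _ h1
        _ = 2 ^ (4 * h) := by
          rw [← mul_pow, pow_mul]
          norm_num
    have h3 : ((h * (4 ^ h * (h * s)) : ℕ) : ℝ) ≤ Fintype.card V := by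
      calc ((h * (4 ^ h * (h * s)) : ℕ) : ℝ) = (4 ^ h * (h * h) : ℝ) * s := by push_cast; ring
        _ ≤ (4 ^ h * (h * h) : ℝ) * (2 * t) := mul_le_mul_of_nonneg_left hs2 (by positivity)
        _ = ((4 ^ h * (2 * h * h) : ℕ) : ℝ) * t := by push_cast; ring
        _ ≤ ((2 ^ (4 * h) : ℕ) : ℝ) * t :=
            mul_le_mul_of_nonneg_right (by exact_mod_cast h2) (by linarith)
        _ ≤ (2 : ℝ) ^ (1 / 20 * (n : ℝ)) * t := by
            refine mul_le_mul_of_nonneg_right ?_ (by linarith)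
            push_cast
            rw [← Real.rpow_natCast]
            apply Real.rpow_le_rpow_of_exponent_le (by norm_num)
            push_cast
            have : (80 : ℝ) * h ≤ n := by exact_mod_cast hh
            linarith
        _ = Fintype.card V := by
            rw [ht, ← mul_assoc, ← Real.rpow_add (by norm_num)]
            simp
    exact_mod_cast h3

end Pool.Agent.Work.MP_40b2ba_co.QR
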