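import Mathlib

/-!
Real inequalities.
-/

set_option autoImplicit false

namespace Pool.Agent.Work.MP_40b2ba_co.QR

open Real

theorem entropy_le (a : ℝ) :
    -(a * logb 2 a) + -((1 - a) * logb 2 (1 - a)) ≤ 1 := by
  have h := Real.binEntropy_le_log_two (p := a)
  rw [Real.binEntropy_eq_negMulLog_add_negMulLog_one_sub] at h
  unfold Real.negMulLog at h
  have hl : 0 < Real.log 2 := Real.log_pos (by norm_num)
  have h2 : -(a * logb 2 a) + -((1 - a) * logb 2 (1 - a)) =
      (-a * Real.log a + -(1 - a) * Real.log (1 - a)) / Real.log 2 := by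
    unfold logb; field_simp
  rw [h2, div_le_one hl]
  exact h

/-- One side of the split. `a` is the proportion of the side, `x` the logarithm of the size of the
whole set. -/
theorem side_one (x a d W : ℝ) (hx : 0 < x) (ha0 : 0 < a) (ha1 : a ≤ 1) (hd : d ≤ 1) (hW : 0 ≤ W)
    (h : (x + logb 2 a) * d ≤ W) :
    a * (x * d) ≤ a * W + (-(a * logb 2 a)) * (3 * W / (2 * x)) + x * 2 ^ (-(x / 3)) := by
  have hl : logb 2 a ≤ 0 := Real.logb_nonpos (by norm_num) ha0.le ha1
  have h1 : 0 ≤ -(a * logb 2 a) := by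
    have := mul_nonneg ha0.le (neg_nonneg.2 hl)
    linarith
  have h2 : 0 ≤ 3 * W / (2 * x) := by positivity
  have h3 : 0 ≤ x * (2 : ℝ) ^ (-(x / 3)) := by positivity
  have h4 : 0 ≤ a * W := mul_nonneg ha0.le hW
  have h5 := mul_nonneg h1 h2
  rcases le_or_gt d 0 with hd0 | hd0
  · have : a * (x * d) ≤ 0 := by
      have := mul_nonneg ha0.le (mul_nonneg hx.le (neg_nonneg.2 hd0))
      linarith
    linarith
  · rcases le_or_gt (-(x / 3)) (logb 2 a) with hc | hc
    · have h6 : 2 * x / 3 * d ≤ W := by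
        have : 2 * x / 3 ≤ x + logb 2 a := by linarith
        exact (mul_le_mul_of_nonneg_right this hd0.le).trans h
      have h7 : d ≤ 3 * W / (2 * x) := by
        rw [le_div_iff₀ (by positivity)]
        linarith
      have h8 : (-(a * logb 2 a)) * d ≤ (-(a * logb 2 a)) * (3 * W / (2 * x)) :=
        mul_le_mul_of_nonneg_left h7 h1
      have h9 : a * ((x + logb 2 a) * d) ≤ a * W := mul_le_mul_of_nonneg_left h ha0.le
      have h10 : a * (x * d) = a * ((x + logb 2 a) * d) + (-(a * logb 2 a)) * d := by ring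
      linarith
    · have h6 : a ≤ (2 : ℝ) ^ (-(x / 3)) := by
        rw [← Real.logb_le_iff_le_rpow (by norm_num) ha0]
        exact hc.le
      have h7 : a * (x * d) ≤ x * 2 ^ (-(x / 3)) := by
        calc a * (x * d) ≤ (2 : ℝ) ^ (-(x / 3)) * (x * 1) :=
              mul_le_mul h6 (mul_le_mul_of_nonneg_left hd hx.le) (by positivity) (by positivity)
          _ = x * 2 ^ (-(x / 3)) := by ring
      linarith

/-- The two sides together. -/
theorem side_two (x W D : ℝ) (m1 m2 M e1 e2 : ℕ) (hm : 0 < m1 + m2) (hM : 0 < M)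
    (hx : x = logb 2 ((m1 + m2 : ℕ) : ℝ)) (hx1 : 3 / 2 ≤ x)
    (h1 : e1 ≤ m1 * M) (h2 : e2 ≤ m2 * M) (hW : 0 ≤ W)
    (hD : D = 2 * ((e1 + e2 : ℕ) : ℝ) / ((m1 + m2 : ℕ) * M) - 1)
    (hW1 : 0 < m1 → logb 2 m1 * (2 * (e1 : ℝ) / (m1 * M) - 1) ≤ W)
    (hW2 : 0 < m2 → logb 2 m2 * (2 * (e2 : ℝ) / (m2 * M) - 1) ≤ W) :
    (x - 3 / 2) * D - 2 * (x * 2 ^ (-(x / 3))) ≤ W := by
  have hx0 : 0 < x := by linarith
  have hmR : (0 : ℝ) < ((m1 + m2 : ℕ) : ℝ) := by exact_mod_cast hm
  have hMR : (0 : ℝ) < (M : ℝ) := by exact_mod_cast hM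
  set μ : ℝ := ((m1 + m2 : ℕ) : ℝ) with hμ
  have hμ' : μ = m1 + m2 := by rw [hμ]; push_cast; ring
  have hτ : 0 ≤ x * (2 : ℝ) ^ (-(x / 3)) := by positivity
  have key : ∀ (m e : ℕ), m ≤ m1 + m2 → e ≤ m * M →
      (0 < m → logb 2 m * (2 * (e : ℝ) / (m * M) - 1) ≤ W) →
      x * (2 * (e : ℝ) / (μ * M) - m / μ) ≤ m / μ * W +
        (-((m : ℝ) / μ * logb 2 (m / μ))) * (3 * W / (2 * x)) + x * 2 ^ (-(x / 3)) := by
    intro m e hmm he hWm
    rcases Nat.eq_zero_or_pos m with h0 | h0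
    · subst h0
      have : e = 0 := by simpa using he
      subst this
      simp
      exact hτ
    · have hm0 : (0 : ℝ) < m := by exact_mod_cast h0
      have ha0 : 0 < (m : ℝ) / μ := by positivity
      have ha1 : (m : ℝ) / μ ≤ 1 := by
        rw [div_le_one hmR, hμ]
        exact_mod_cast hmm
      have hd : 2 * (e : ℝ) / (m * M) - 1 ≤ 1 := by
        have : (e : ℝ) / (m * M) ≤ 1 := by
          rw [div_le_one (by positivity)]
          exact_mod_cast he
        have h3 : 2 * (e : ℝ) / (m * M) = 2 * ((e : ℝ) / (m * M)) := by ring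
        linarith
      have hlog : x + logb 2 ((m : ℝ) / μ) = logb 2 m := by
        rw [Real.logb_div hm0.ne' hmR.ne', hx]
        ring
      have h3 := side_one x ((m : ℝ) / μ) (2 * (e : ℝ) / (m * M) - 1) W hx0 ha0 ha1 hd hW
        (by rw [hlog]; exact hWm h0)
      have h4 : (m : ℝ) / μ * (x * (2 * (e : ℝ) / (m * M) - 1)) =
          x * (2 * (e : ℝ) / (μ * M) - m / μ) := by
        field_simp
      rw [h4] at h3
      exact h3
  have k1 := key m1 e1 (by omega) h1 hW1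
  have k2 := key m2 e2 (by omega) h2 hW2
  have hsum : (m1 : ℝ) / μ + m2 / μ = 1 := by
    rw [← add_div, ← hμ', div_self hmR.ne']
  have ha : (m2 : ℝ) / μ = 1 - m1 / μ := by linarith
  have hent := entropy_le ((m1 : ℝ) / μ)
  rw [← ha] at hent
  have hDsum : x * D = x * (2 * (e1 : ℝ) / (μ * M) - m1 / μ) +
      x * (2 * (e2 : ℝ) / (μ * M) - m2 / μ) := by
    have h5 : D = 2 * (e1 : ℝ) / (μ * M) + 2 * (e2 : ℝ) / (μ * M) - (m1 / μ + m2 / μ) := by
      rw [hD, hsum]; push_cast; ring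
    rw [h5]; ring
  have h3W : 0 ≤ 3 * W / (2 * x) := by positivity
  have htot : x * D ≤ W + 3 * W / (2 * x) + 2 * (x * 2 ^ (-(x / 3))) := by
    have h6 := mul_le_mul_of_nonneg_right hent h3W
    have h7 : (m1 : ℝ) / μ * W + m2 / μ * W = W := by rw [← add_mul, hsum, one_mul]
    rw [hDsum]
    linarith
  by_contra hcon
  push Not at hcon
  set τ := 2 * (x * (2 : ℝ) ^ (-(x / 3))) with hτdef
  have hτ0 : 0 ≤ τ := by positivity
  have hD0 : 0 < (x - 3 / 2) * D := by linarith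
  -- multiply by `x`
  have h8 : x * (x * D) ≤ x * W + 3 * W / 2 + x * τ := by
    have h9 := mul_le_mul_of_nonneg_left htot hx0.le
    have h10 : x * (W + 3 * W / (2 * x) + τ) = x * W + 3 * W / 2 + x * τ := by
      field_simp
    linarith
  have h11 : x * W + 3 * W / 2 = (x + 3 / 2) * W := by ring
  have h12 : (x + 3 / 2) * W < (x + 3 / 2) * ((x - 3 / 2) * D - τ) :=
    mul_lt_mul_of_pos_left hcon (by linarith)
  have h13 : (x + 3 / 2) * ((x - 3 / 2) * D - τ) = x * (x * D) - 9 / 4 * D - x * τ - 3 / 2 * τ := by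
    ring
  have hDpos : 0 ≤ D := by
    by_contra hneg
    push Not at hneg
    have : (x - 3 / 2) * D ≤ 0 := mul_nonpos_of_nonneg_of_nonpos (by linarith) hneg.le
    linarith
  nlinarith

/-- Kullback-Leibler type inequality. -/
theorem kl_term (q m : ℝ) (hq : 0 ≤ q) (hm : 0 < m) : q - 1 / m ≤ q * Real.log (q * m) := by
  rcases hq.eq_or_lt with h | h
  · rw [← h]; simp; positivity
  · have h1 : 0 < q * m := by positivity
    have h2 := Real.one_sub_inv_le_log_of_pos h1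
    have h3 := mul_le_mul_of_nonneg_left h2 hq
    have h4 : q * (1 - (q * m)⁻¹) = q - 1 / m := by field_simp
    linarith

/-- The choice of the vertex. -/
theorem exists_good {ι : Type*} (X : Finset ι) (Mv Ev : ι → ℕ) (M e A : ℝ)
    (hX : 2 ≤ X.card) (hA : 0 ≤ A) (hM : 0 < M) (he : 0 < e)
    (hhalf : 1 / 2 ≤ e / (X.card * M))
    (hS1 : ∑ v ∈ X, (Mv v : ℝ) = e)
    (hS2 : e ^ 2 ≤ M * ((∑ v ∈ X, (Ev v : ℝ)) + e)) (hE : ∀ v ∈ X, Mv v = 0 → Ev v = 0) :
    ∃ v ∈ X, 0 < Mv v ∧ 0 ≤ logb 2 (Mv v / (e / X.card)) +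
      A * ((2 * (Ev v : ℝ) / ((X.card - 1) * Mv v) - 1) - (2 * (e / (X.card * M)) - 1) +
        1 / (X.card - 1)) := by
  classical
  set m : ℝ := (X.card : ℝ) with hm
  have hm2 : (2 : ℝ) ≤ m := by rw [hm]; exact_mod_cast hX
  have hm0 : 0 < m := by linarith
  have hm1 : 0 < m - 1 := by linarith
  by_contra hcon
  push Not at hcon
  set K : ℝ := -(2 * (e / (m * M)) - 1) + 1 / (m - 1) with hK
  have hstrict : ∀ v ∈ X, 0 < Mv v → (Mv v : ℝ) / e * logb 2 (Mv v / e * m) +
      A * (2 * (Ev v : ℝ) / ((m - 1) * e) - Mv v / e + Mv v / e * K) < 0 := by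
    intro v hv h0
    · have h1 := hcon v hv h0
      have h2 : (0 : ℝ) < Mv v := by exact_mod_cast h0
      have h3 : 0 < (Mv v : ℝ) / e := by positivity
      have h4 := mul_neg_of_pos_of_neg h3 h1
      have h5 : (Mv v : ℝ) / (e / m) = Mv v / e * m := by field_simp
      rw [h5] at h4
      have h6 : (Mv v : ℝ) / e * (logb 2 (Mv v / e * m) +
          A * ((2 * (Ev v : ℝ) / ((m - 1) * Mv v) - 1) - (2 * (e / (m * M)) - 1) +
            1 / (m - 1))) = (Mv v : ℝ) / e * logb 2 (Mv v / e * m) +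
          A * (2 * (Ev v : ℝ) / ((m - 1) * e) - Mv v / e + Mv v / e * K) := by
        rw [hK]
        field_simp
        ring
      rw [h6] at h4
      exact h4
  have hterm : ∀ v ∈ X, (Mv v : ℝ) / e * logb 2 (Mv v / e * m) +
      A * (2 * (Ev v : ℝ) / ((m - 1) * e) - Mv v / e + Mv v / e * K) ≤ 0 := by
    intro v hv
    rcases Nat.eq_zero_or_pos (Mv v) with h0 | h0
    · rw [h0, hE v hv h0]; simp
    · exact (hstrict v hv h0).le
  have hw : ∑ v ∈ X, (Mv v : ℝ) / e = 1 := by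
    rw [← Finset.sum_div, hS1, div_self he.ne']
  have hKL : 0 ≤ ∑ v ∈ X, (Mv v : ℝ) / e * logb 2 (Mv v / e * m) := by
    have h1 : ∀ v ∈ X, ((Mv v : ℝ) / e - 1 / m) / Real.log 2 ≤
        (Mv v : ℝ) / e * logb 2 (Mv v / e * m) := by
      intro v _
      have h2 := kl_term ((Mv v : ℝ) / e) m (by positivity) hm0
      have hl : 0 < Real.log 2 := Real.log_pos (by norm_num)
      unfold logb
      rw [← mul_div_assoc]
      exact div_le_div_of_nonneg_right h2 hl.le
    refine le_trans ?_ (Finset.sum_le_sum h1)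
    rw [← Finset.sum_div, Finset.sum_sub_distrib, hw, Finset.sum_const, nsmul_eq_mul, ← hm,
      mul_one_div_cancel hm0.ne', sub_self, zero_div]
  have hex : ∃ v ∈ X, 0 < Mv v := by
    by_contra hno
    push Not at hno
    have : ∑ v ∈ X, (Mv v : ℝ) = 0 := Finset.sum_eq_zero fun v hv => by
      have := hno v hv
      have h0 : Mv v = 0 := by omega
      rw [h0]; simp
    rw [hS1] at this
    exact he.ne' this
  obtain ⟨v0, hv0, hpos0⟩ := hex
  have hsum := Finset.sum_lt_sum hterm ⟨v0, hv0, hstrict v0 hv0 hpos0⟩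
  rw [Finset.sum_const_zero] at hsum
  rw [Finset.sum_add_distrib, ← Finset.mul_sum] at hsum
  have h2 : ∑ v ∈ X, (2 * (Ev v : ℝ) / ((m - 1) * e) - Mv v / e + Mv v / e * K) =
      2 * (∑ v ∈ X, (Ev v : ℝ)) / ((m - 1) * e) - 1 + K := by
    rw [Finset.sum_add_distrib, Finset.sum_sub_distrib, hw, ← Finset.sum_mul, hw, one_mul,
      Finset.mul_sum, ← Finset.sum_div]
  rw [h2] at hsum
  -- the second bracket is nonnegative, so everything vanishes; sharpen by strictness
  have h3 : 0 ≤ 2 * (∑ v ∈ X, (Ev v : ℝ)) / ((m - 1) * e) - 1 + K := by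
    have h4 : e / M - 1 ≤ (∑ v ∈ X, (Ev v : ℝ)) / e := by
      rw [le_div_iff₀ he]
      have : e / M * e ≤ (∑ v ∈ X, (Ev v : ℝ)) + e := by
        rw [div_mul_eq_mul_div, div_le_iff₀ hM]
        nlinarith
      linarith
    have h5 : 2 * (∑ v ∈ X, (Ev v : ℝ)) / ((m - 1) * e) =
        2 / (m - 1) * ((∑ v ∈ X, (Ev v : ℝ)) / e) := by field_simp
    have h6 : 2 / (m - 1) * (e / M - 1) ≤ 2 / (m - 1) * ((∑ v ∈ X, (Ev v : ℝ)) / e) :=
      mul_le_mul_of_nonneg_left h4 (by positivity)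
    set p : ℝ := e / (m * M) with hp
    have h7 : e / M = m * p := by rw [hp]; field_simp
    rw [h7] at h6
    have h8 : 2 / (m - 1) * (m * p - 1) - 1 + K = (2 * p - 1) / (m - 1) := by
      rw [hK]; field_simp; ring
    have h9 : 0 ≤ (2 * p - 1) / (m - 1) := div_nonneg (by linarith) hm1.le
    rw [h5]
    linarith
  have h10 := mul_nonneg hA h3
  linarith

end Pool.Agent.Work.MP_40b2ba_co.QR
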