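import Pool.Agent.Work.MP_40b2ba_co.QR.Chain
import Pool.Agent.Work.MP_40b2ba_co.QR.Reals

/-!
Two sets with many arcs from one to the other contain a large transitive subtournament.
-/

set_option autoImplicit false

namespace Pool.Agent.Work.MP_40b2ba_co.QR

open Real

theorem logb_two_mul {p : ℝ} (h0 : 1 / 2 ≤ p) (h1 : p ≤ 1) : 2 * p - 1 ≤ 1 + logb 2 p := by
  have hp : 0 < p := by linarith
  have h2 : 1 + logb 2 p = logb 2 (2 * p) := by
    rw [Real.logb_mul (by norm_num) hp.ne', Real.logb_self_eq_one (by norm_num)]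
  rw [h2, Real.le_logb_iff_rpow_le (by norm_num) (by linarith)]
  have h3 := _root_.rpow_one_add_le_one_add_mul_self (s := 1) (by norm_num) (p := 2 * p - 1)
    (by linarith) (by linarith)
  norm_num at h3 ⊢
  linarith

theorem num_ineq {t : ℝ} (ht : 59 ≤ t) : 2 * t * (t + 1) ≤ 15 * 2 ^ (t / 3) := by
  have hl : (0.69 : ℝ) < Real.log 2 := by
    have := Real.log_two_gt_d9
    linarith
  have h1 : (2 : ℝ) ^ (t / 3) = Real.exp (Real.log 2 * (t / 3)) :=
    Real.rpow_def_of_pos (by norm_num) _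
  have h2 : 0.23 * t ≤ Real.log 2 * (t / 3) := by nlinarith
  have h3 : (0.23 * t) ^ 4 / (Nat.factorial 4 : ℕ) ≤ Real.exp (0.23 * t) :=
    Real.pow_div_factorial_le_exp _ (by linarith) 4
  have h4 : Real.exp (0.23 * t) ≤ (2 : ℝ) ^ (t / 3) := by
    rw [h1]; exact Real.exp_le_exp.2 h2
  have h5 : (Nat.factorial 4 : ℕ) = 24 := rfl
  rw [h5] at h3
  push_cast at h3
  have h6 : 2 * t * (t + 1) ≤ 15 * ((0.23 * t) ^ 4 / 24) := by
    have h7 : (59 : ℝ) ^ 2 ≤ t ^ 2 := by nlinarith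
    have h8 : t * 59 ≤ t ^ 2 := by nlinarith
    have h9 : (59 : ℝ) ^ 2 * t ^ 2 ≤ t ^ 4 := by
      have : t ^ 4 = t ^ 2 * t ^ 2 := by ring
      rw [this]
      exact mul_le_mul_of_nonneg_right h7 (by positivity)
    nlinarith
  linarith

theorem pick (m1 m2 : ℕ) (w1 w2 : ℝ) (P : ℝ → Prop) (h0 : P 0) (h1 : 0 < m1 → P w1)
    (h2 : 0 < m2 → P w2) : ∃ W, 0 ≤ W ∧ P W ∧ (0 < m1 → w1 ≤ W) ∧ (0 < m2 → w2 ≤ W) := by
  by_cases a1 : 0 < m1 ∧ 0 ≤ w1
  · by_cases a2 : 0 < m2 ∧ 0 ≤ w2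
    · rcases le_total w1 w2 with h | h
      · exact ⟨w2, a2.2, h2 a2.1, fun _ => h, fun _ => le_rfl⟩
      · exact ⟨w1, a1.2, h1 a1.1, fun _ => le_rfl, fun _ => h⟩
    · refine ⟨w1, a1.2, h1 a1.1, fun _ => le_rfl, fun h => ?_⟩
      have : w2 < 0 := by by_contra hc; exact a2 ⟨h, not_lt.1 hc⟩
      linarith [a1.2]
  · have b1 : 0 < m1 → w1 ≤ 0 := by
      intro h
      by_contra hc
      exact a1 ⟨h, (not_le.1 hc).le⟩
    by_cases a2 : 0 < m2 ∧ 0 ≤ w2
    · exact ⟨w2, a2.2, h2 a2.1, fun h => (b1 h).trans a2.2, fun _ => le_rfl⟩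
    · refine ⟨0, le_rfl, h0, b1, fun h => ?_⟩
      by_contra hc
      exact a2 ⟨h, (not_le.1 hc).le⟩

/-- The final numerical estimate. -/
theorem final_est (m : ℕ) (p x x1 : ℝ) (hm : 2 ≤ m) (hx : x = logb 2 m)
    (hx1 : x1 = logb 2 ((m - 1 : ℕ) : ℝ)) (hp1 : p ≤ 1) (hbig : 30 < x * (p - 1 / 2)) :
    60 < x ∧ 59 ≤ x1 ∧ 1 / 2 < p ∧
    x * (p - 1 / 2) ≤ (1 + logb 2 p) + 1 / 2 * (x1 - 3 / 2) * (2 * p - 1) -
      1 / 2 * (x1 - 3 / 2) * (1 / ((m : ℝ) - 1)) - x1 * 2 ^ (-(x1 / 3)) := by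
  have hmR : (2 : ℝ) ≤ m := by exact_mod_cast hm
  have hm1 : ((m - 1 : ℕ) : ℝ) = (m : ℝ) - 1 := by
    rw [Nat.cast_sub (by omega)]; simp
  have hx0 : 0 ≤ x := by rw [hx]; exact Real.logb_nonneg (by norm_num) (by linarith)
  have hx60 : 60 < x := by nlinarith
  have hp : 1 / 2 < p := by
    by_contra hc
    push Not at hc
    nlinarith
  have hmm1 : (0 : ℝ) < (m : ℝ) - 1 := by linarith
  have hx1' : x1 = logb 2 ((m : ℝ) - 1) := by rw [hx1, hm1]
  have hle1 : x ≤ x1 + 1 := by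
    rw [hx, hx1']
    have : logb 2 ((m : ℝ) - 1) + 1 = logb 2 (2 * ((m : ℝ) - 1)) := by
      rw [Real.logb_mul (by norm_num) hmm1.ne', Real.logb_self_eq_one (by norm_num)]; ring
    rw [this]
    exact Real.logb_le_logb_of_le (by norm_num) (by linarith) (by linarith)
  have hx59 : 59 ≤ x1 := by linarith
  refine ⟨hx60, hx59, hp, ?_⟩
  have hinv : 1 / ((m : ℝ) - 1) = 2 ^ (-x1) := by
    rw [hx1', Real.rpow_neg (by norm_num), Real.rpow_logb (by norm_num) (by norm_num) hmm1, one_div]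
  have hdiff : x - x1 ≤ 2 * (1 / ((m : ℝ) - 1)) := by
    have h1 : x - x1 = Real.log ((m : ℝ) / (m - 1)) / Real.log 2 := by
      rw [hx, hx1', Real.log_div (by linarith) hmm1.ne']
      unfold logb
      ring
    have hl : (1 / 2 : ℝ) < Real.log 2 := by
      have := Real.log_two_gt_d9
      linarith
    have h2 : Real.log ((m : ℝ) / (m - 1)) ≤ 1 / ((m : ℝ) - 1) := by
      have h3 := Real.log_le_sub_one_of_pos (x := (m : ℝ) / (m - 1)) (by positivity)
      have h4 : (m : ℝ) / (m - 1) - 1 = 1 / ((m : ℝ) - 1) := by field_simp; ring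
      linarith
    rw [h1, div_le_iff₀ (by linarith)]
    have h5 : 0 < 1 / ((m : ℝ) - 1) := by positivity
    nlinarith
  have hpow : (2 : ℝ) ^ (-x1) ≤ 2 ^ (-(x1 / 3)) :=
    Real.rpow_le_rpow_of_exponent_le (by norm_num) (by linarith)
  set s : ℝ := (2 : ℝ) ^ (-(x1 / 3)) with hs
  have hs0 : 0 < s := by positivity
  have hi0 : 0 < 1 / ((m : ℝ) - 1) := by positivity
  have hile : 1 / ((m : ℝ) - 1) ≤ s := by rw [hinv]; exact hpow
  have hnum : 2 * x1 * s ≤ 15 / x := by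
    have h1 := num_ineq hx59
    have h2 : s * (2 : ℝ) ^ (x1 / 3) = 1 := by
      rw [hs, ← Real.rpow_add (by norm_num)]
      simp
    rw [le_div_iff₀ (by linarith)]
    have h3 : 2 * x1 * (x1 + 1) * s ≤ 15 * 2 ^ (x1 / 3) * s :=
      mul_le_mul_of_nonneg_right h1 hs0.le
    have h4 : 15 * (2 : ℝ) ^ (x1 / 3) * s = 15 := by
      calc 15 * (2 : ℝ) ^ (x1 / 3) * s = 15 * (s * (2 : ℝ) ^ (x1 / 3)) := by ring
        _ = 15 := by rw [h2]; ring
    have h5 : 2 * x1 * s * x ≤ 2 * x1 * s * (x1 + 1) :=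
      mul_le_mul_of_nonneg_left hle1 (by positivity)
    linarith
  have hlow : 15 / x ≤ 1 / 2 * (p - 1 / 2) := by
    rw [div_le_iff₀ (by linarith)]
    linarith
  have hlog := logb_two_mul hp.le hp1
  have h6 : (x - x1) * (p - 1 / 2) ≤ s := by
    have h7 : (x - x1) * (p - 1 / 2) ≤ 2 * (1 / ((m : ℝ) - 1)) * (p - 1 / 2) :=
      mul_le_mul_of_nonneg_right hdiff (by linarith)
    have h8 : 2 * (1 / ((m : ℝ) - 1)) * (p - 1 / 2) ≤ 2 * (1 / ((m : ℝ) - 1)) * (1 / 2) :=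
      mul_le_mul_of_nonneg_left (by linarith) (by positivity)
    linarith
  have h9 : 1 / 2 * (x1 - 3 / 2) * (1 / ((m : ℝ) - 1)) ≤ 1 / 2 * (x1 - 3 / 2) * s :=
    mul_le_mul_of_nonneg_left hile (by linarith)
  nlinarith

variable {V : Type*} {R : V → V → Prop}

theorem two_set (hR : IsTour R) : ∀ (m : ℕ) (X Y : Finset V), X.card = m → X.Nonempty →
    Y.Nonempty → ∃ k : ℕ, Ch R X Y k ∧
      logb 2 Y.card + logb 2 X.card * (dens R X Y - 1 / 2) - 30 ≤ k := by
  classical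
  intro m
  induction m using Nat.strong_induction_on with
  | _ m ih =>
  intro X Y hXm hX hY
  by_cases hbig : logb 2 X.card * (dens R X Y - 1 / 2) ≤ 30
  · obtain ⟨k, hk, hk2⟩ := ch_base hR X hY
    exact ⟨k, hk, by linarith⟩
  push Not at hbig
  have hXpos : 0 < X.card := Finset.card_pos.2 hX
  have hYpos : 0 < Y.card := Finset.card_pos.2 hY
  have hYR : (0 : ℝ) < Y.card := by exact_mod_cast hYpos
  have hm2 : 2 ≤ m := by
    by_contra hc
    have : m = 1 := by omega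
    rw [hXm, this] at hbig
    simp at hbig
    linarith
  set p := dens R X Y with hp
  have hpdef : p = (arcs R X Y : ℝ) / (X.card * Y.card) := rfl
  have hp1 : p ≤ 1 := by
    rw [hpdef, div_le_one (by positivity)]
    exact_mod_cast arcs_le X Y
  rw [hXm] at hbig hpdef ⊢
  obtain ⟨hx60, hx59, hphalf, hest⟩ := final_est m p _ _ hm2 rfl rfl hp1 hbig
  set x := logb 2 (m : ℝ) with hx
  set x1 := logb 2 ((m - 1 : ℕ) : ℝ) with hx1
  have hmR : (2 : ℝ) ≤ m := by exact_mod_cast hm2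
  have hm1 : ((m - 1 : ℕ) : ℝ) = (m : ℝ) - 1 := by
    rw [Nat.cast_sub (by omega)]; simp
  have he : (0 : ℝ) < arcs R X Y := by
    by_contra hc
    have h0 : (arcs R X Y : ℝ) = 0 := le_antisymm (not_lt.1 hc) (by positivity)
    rw [hpdef, h0, zero_div] at hphalf
    linarith
  set A : ℝ := 1 / 2 * (x1 - 3 / 2) with hA
  obtain ⟨v, hv, hMv, hgood⟩ := exists_good X (fun v => (outN R v Y).card)
    (fun v => arcs R (X.erase v) (outN R v Y)) (Y.card : ℝ) (arcs R X Y : ℝ) A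
    (by omega) (by rw [hA]; linarith) hYR he (by rw [hXm, ← hpdef]; exact hphalf.le)
    (by exact_mod_cast (arcs_eq_out (R := R) X Y).symm)
    (sum_second_ge X Y)
    (fun v _ h0 => by
      have := arcs_le (R := R) (X.erase v) (outN R v Y)
      rw [h0, mul_zero] at this
      omega)

  rw [hXm] at hgood
  rw [← hpdef] at hgood
  have hM'R : (0 : ℝ) < (outN R v Y).card := by exact_mod_cast hMv
  have hYv : (outN R v Y).Nonempty := Finset.card_pos.1 hMv
  have hcard := card_out_in hR hv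
  rw [hXm] at hcard
  have hsplit := arcs_split hR v X (outN R v Y)
  -- the sides
  have hside : ∀ X' : Finset V, X'.card < m → (∀ k, Ch R X' (outN R v Y) k → Ch R X Y (k + 1)) →
      0 < X'.card → ∃ k : ℕ, Ch R X Y (k + 1) ∧ logb 2 (outN R v Y).card +
        (logb 2 X'.card * (2 * (arcs R X' (outN R v Y) : ℝ) / (X'.card * (outN R v Y).card) - 1)) / 2
          - 30 ≤ k := by
    intro X' hlt hch hpos
    obtain ⟨k, hk, hk2⟩ := ih X'.card hlt X' (outN R v Y) rfl (Finset.card_pos.1 hpos) hYv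
    refine ⟨k, hch k hk, ?_⟩
    have : (logb 2 X'.card * (2 * (arcs R X' (outN R v Y) : ℝ) /
        (X'.card * (outN R v Y).card) - 1)) / 2 =
        logb 2 X'.card * (dens R X' (outN R v Y) - 1 / 2) := by
      unfold dens; ring
    rw [this]
    exact hk2
  obtain ⟨W, hW0, ⟨k, hk, hk2⟩, hW1, hW2⟩ := pick (outN R v X).card (inN R v X).card
    (logb 2 (outN R v X).card * (2 * (arcs R (outN R v X) (outN R v Y) : ℝ) /
      ((outN R v X).card * (outN R v Y).card) - 1))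
    (logb 2 (inN R v X).card * (2 * (arcs R (inN R v X) (outN R v Y) : ℝ) /
      ((inN R v X).card * (outN R v Y).card) - 1))
    (fun W => ∃ k : ℕ, Ch R X Y (k + 1) ∧ logb 2 (outN R v Y).card + W / 2 - 30 ≤ k)
    (by
      obtain ⟨k, hk, hk2⟩ := ch_base hR (outN R v X) hYv
      exact ⟨k, ch_out hv hk, by linarith⟩)
    (fun h => hside _ (by omega) (fun k hk => ch_out hv hk) h)
    (fun h => hside _ (by omega) (fun k hk => ch_in hv hk) h)
  refine ⟨k + 1, hk, ?_⟩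
  have hs2 := side_two x1 W (2 * ((arcs R (X.erase v) (outN R v Y) : ℕ) : ℝ) /
      (((m : ℝ) - 1) * (outN R v Y).card) - 1)
    (outN R v X).card (inN R v X).card (outN R v Y).card
    (arcs R (outN R v X) (outN R v Y)) (arcs R (inN R v X) (outN R v Y)) (by omega) hMv
    (by rw [hcard]) (by linarith) (arcs_le _ _) (arcs_le _ _) hW0
    (by rw [hcard, hm1, hsplit]) hW1 hW2
  set D : ℝ := 2 * ((arcs R (X.erase v) (outN R v Y) : ℕ) : ℝ) /
      (((m : ℝ) - 1) * (outN R v Y).card) - 1 with hD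
  have hlogM : logb 2 (outN R v Y).card =
      logb 2 ((outN R v Y).card / ((arcs R X Y : ℝ) / m)) + logb 2 p + logb 2 Y.card := by
    have h1 : ((outN R v Y).card : ℝ) =
        ((outN R v Y).card / ((arcs R X Y : ℝ) / m)) * (p * Y.card) := by
      rw [hpdef]; field_simp
    have hm0 : (0 : ℝ) < m := by linarith
    have ha : ((outN R v Y).card : ℝ) / ((arcs R X Y : ℝ) / m) ≠ 0 :=
      (div_pos hM'R (div_pos he hm0)).ne'
    have hb : p ≠ 0 := by linarith
    have hc : (Y.card : ℝ) ≠ 0 := hYR.ne'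
    have h2 := congrArg (logb 2) h1
    rw [h2, Real.logb_mul ha (mul_ne_zero hb hc), Real.logb_mul hb hc]
    ring
  have hAD : A * D = (1 / 2) * ((x1 - 3 / 2) * D) := by rw [hA]; ring
  push_cast
  have hgood' : -(A * D) + A * (2 * p - 1) - A * (1 / ((m : ℝ) - 1)) ≤
      logb 2 ((outN R v Y).card / ((arcs R X Y : ℝ) / m)) := by
    have : A * (D - (2 * p - 1) + 1 / ((m : ℝ) - 1)) =
        A * D - A * (2 * p - 1) + A * (1 / ((m : ℝ) - 1)) := by ring
    rw [hD] at this ⊢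
    linarith
  rw [hlogM] at hk2
  linarith

end Pool.Agent.Work.MP_40b2ba_co.QR
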